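import Pool.Agent.R776.TP.Regular

set_option autoImplicit false

/-! # Packing a tree with `m` edges into `2m`-regular graphs -/

namespace Pool.Agent.Results.MP_df0165_co.MoreThanHalf

/-- Let `T` be a tree with `m` edges and `G` a finite `2m`-regular graph. Then `G` has pairwise
edge-disjoint copies of `T` which cover at least the fraction `(m + 1) / (2 m)` of its edges: there
are `q` injective homomorphisms from `T` to `G` such that edges of different copies are different
and `(m + 1) |E(G)| ≤ 2 m · (q m)`. -/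
theorem result :
    ∀ (W : Type) [Fintype W] (T : SimpleGraph W), T.IsTree →
      ∀ (V : Type) [Fintype V] (G : SimpleGraph V) [DecidableRel G.Adj],
        G.IsRegularOfDegree (2 * T.edgeSet.ncard) →
        ∃ (q : ℕ) (f : Fin q → (T →g G)),
          (∀ i, Function.Injective (f i)) ∧
          (∀ i j, i ≠ j → ∀ e ∈ T.edgeSet, ∀ e' ∈ T.edgeSet,
            Sym2.map (f i) e ≠ Sym2.map (f j) e') ∧
          (T.edgeSet.ncard + 1) * G.edgeSet.ncard ≤
            2 * T.edgeSet.ncard * (q * T.edgeSet.ncard) := by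
  intro W _ T hT V _ G _ hG
  have hE := R776.TP.regular_edges G _ hG
  rcases Nat.eq_zero_or_pos T.edgeSet.ncard with h0 | h0
  · refine ⟨0, fun i => i.elim0, fun i => i.elim0, fun i => i.elim0, ?_⟩
    rw [h0] at hE ⊢
    omega
  · obtain ⟨q, f, f1, f2, f3⟩ := R776.TP.regular_cover T hT G _ hG h0 (by omega)
    refine ⟨q, f, f1, f2, ?_⟩
    rw [Nat.card_eq_fintype_card] at hE
    obtain ⟨m, hm⟩ : ∃ m, m = T.edgeSet.ncard := ⟨_, rfl⟩
    rw [← hm] at hE f3 ⊢
    have e1 : 2 * m + 1 - m = m + 1 := by omega
    rw [e1] at f3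
    have hE2 : G.edgeSet.ncard = m * Fintype.card V := by
      have : 2 * G.edgeSet.ncard = 2 * (m * Fintype.card V) := by rw [hE]; ring
      omega
    rw [hE2]
    calc (m + 1) * (m * Fintype.card V) = m * ((m + 1) * Fintype.card V) := by ring
      _ ≤ m * (2 * m * q) := Nat.mul_le_mul_left _ f3
      _ = 2 * m * (q * m) := by ring

end Pool.Agent.Results.MP_df0165_co.MoreThanHalf
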